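import Pool.Agent.Y250.PT.M
import Pool.Agent.Y25.SS.KnA
set_option autoImplicit false

/-! Knapp's example for the paraboloid: the regularity is optimal. -/

namespace Pool.Agent.Y250.PV

open MeasureTheory Set Complex Filter Topology
open scoped ENNReal NNReal
open Pool.Agent.Y250.PT (Reg)

/-- the square -/
def Qr (ρ : ℝ) : Set (ℝ × ℝ) := Icc 0 ρ ×ˢ Icc 0 ρ

lemma Qr_meas (ρ : ℝ) : MeasurableSet (Qr ρ) := measurableSet_Icc.prod measurableSet_Icc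

lemma mem_Qr (ρ : ℝ) (x : ℝ × ℝ) : x ∈ Qr ρ ↔ (0 ≤ x.1 ∧ x.1 ≤ ρ) ∧ (0 ≤ x.2 ∧ x.2 ≤ ρ) := Iff.rfl

lemma Qr_vol (ρ : ℝ) (h0 : 0 < ρ) : volume (Qr ρ) = ENNReal.ofReal (ρ ^ 2) := by
  unfold Qr
  rw [Measure.volume_eq_prod, Measure.prod_prod, Real.volume_Icc, ← ENNReal.ofReal_mul (by linarith)]
  congr 1
  ring

/-- the amplitude -/
noncomputable def gq (ρ : ℝ) : ℝ × ℝ → ℂ := (Qr ρ).indicator fun _ => 1

lemma gq_meas (ρ : ℝ) : Measurable (gq ρ) := measurable_const.indicator (Qr_meas ρ)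

lemma gq_in {ρ : ℝ} {x : ℝ × ℝ} (h : x ∈ Qr ρ) : gq ρ x = 1 := indicator_of_mem h _
lemma gq_out {ρ : ℝ} {x : ℝ × ℝ} (h : x ∉ Qr ρ) : gq ρ x = 0 := indicator_of_notMem h _

lemma int_sq (ρ : ℝ) (h0 : 0 < ρ) : ∫⁻ x, ‖gq ρ x‖ₑ ^ 2 = ENNReal.ofReal (ρ ^ 2) := by
  have h : ∀ x, ‖gq ρ x‖ₑ ^ 2 = (Qr ρ).indicator (fun _ => (1 : ℝ≥0∞)) x := by
    intro x
    by_cases hx : x ∈ Qr ρ
    · rw [gq_in hx, indicator_of_mem hx]; simp
    · rw [gq_out hx, indicator_of_notMem hx]; simp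
  rw [lintegral_congr h, lintegral_indicator (Qr_meas ρ), setLIntegral_one, Qr_vol ρ h0]

/-- the set where the difference does not vanish -/
def Aset (ρ t : ℝ) : Set ℝ := Icc (-t) t ∪ Icc (ρ - t) (ρ + t)

lemma diff_sub (ρ : ℝ) (h : ℝ × ℝ) (hh : ‖h‖ ≤ ρ) (x : ℝ × ℝ) (hx : gq ρ (x + h) ≠ gq ρ x) :
    x ∈ (Aset ρ ‖h‖ ×ˢ Icc (-ρ) (2 * ρ)) ∪ (Icc (-ρ) (2 * ρ) ×ˢ Aset ρ ‖h‖) := by
  by_contra hc
  have h1 : |h.1| ≤ ‖h‖ := norm_fst_le h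
  have h2 : |h.2| ≤ ‖h‖ := norm_snd_le h
  have h1' := abs_le.1 h1
  have h2' := abs_le.1 h2
  have h0 : 0 ≤ ‖h‖ := norm_nonneg h
  simp only [Aset, mem_union, mem_prod, mem_Icc, not_or, not_and, not_le] at hc
  obtain ⟨ha, hb⟩ := hc
  apply hx
  by_cases hm : x ∈ Qr ρ
  · rw [mem_Qr] at hm
    obtain ⟨⟨p1, p2⟩, p3, p4⟩ := hm
    have c1 : ¬ ((-‖h‖ ≤ x.1 ∧ x.1 ≤ ‖h‖) ∨ (ρ - ‖h‖ ≤ x.1 ∧ x.1 ≤ ρ + ‖h‖)) := by
      intro hcc
      have := ha hcc (by linarith)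
      linarith
    have c2 : ¬ ((-‖h‖ ≤ x.2 ∧ x.2 ≤ ‖h‖) ∨ (ρ - ‖h‖ ≤ x.2 ∧ x.2 ≤ ρ + ‖h‖)) := by
      intro hcc
      have := hb ⟨by linarith, by linarith⟩
      rcases hcc with hcc | hcc
      · exact absurd hcc.2 (not_le.mpr (this.1 hcc.1))
      · exact absurd hcc.2 (not_le.mpr (this.2 hcc.1))
    push Not at c1 c2
    have d1 := c1.1 (by linarith)
    have d2 : x.1 < ρ - ‖h‖ := by
      by_contra hcc
      linarith [c1.2 (not_lt.mp hcc)]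
    have d3 := c2.1 (by linarith)
    have d4 : x.2 < ρ - ‖h‖ := by
      by_contra hcc
      linarith [c2.2 (not_lt.mp hcc)]
    rw [gq_in (x := x) ⟨⟨p1, p2⟩, p3, p4⟩, gq_in]
    rw [mem_Qr]
    refine ⟨⟨?_, ?_⟩, ?_, ?_⟩
    · change 0 ≤ x.1 + h.1; linarith
    · change x.1 + h.1 ≤ ρ; linarith
    · change 0 ≤ x.2 + h.2; linarith
    · change x.2 + h.2 ≤ ρ; linarith
  · rw [gq_out hm, gq_out]
    intro hm2
    rw [mem_Qr] at hm2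
    have e1 : (x + h).1 = x.1 + h.1 := rfl
    have e2 : (x + h).2 = x.2 + h.2 := rfl
    rw [e1, e2] at hm2
    obtain ⟨⟨p1, p2⟩, p3, p4⟩ := hm2
    apply hm
    have c1 : ¬ ((-‖h‖ ≤ x.1 ∧ x.1 ≤ ‖h‖) ∨ (ρ - ‖h‖ ≤ x.1 ∧ x.1 ≤ ρ + ‖h‖)) := by
      intro hcc
      have := ha hcc (by linarith)
      linarith
    have c2 : ¬ ((-‖h‖ ≤ x.2 ∧ x.2 ≤ ‖h‖) ∨ (ρ - ‖h‖ ≤ x.2 ∧ x.2 ≤ ρ + ‖h‖)) := by
      intro hcc
      have := hb ⟨by linarith, by linarith⟩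
      rcases hcc with hcc | hcc
      · exact absurd hcc.2 (not_le.mpr (this.1 hcc.1))
      · exact absurd hcc.2 (not_le.mpr (this.2 hcc.1))
    push Not at c1 c2
    have d1 := c1.1 (by linarith)
    have d2 : x.1 < ρ - ‖h‖ := by
      by_contra hcc
      linarith [c1.2 (not_lt.mp hcc)]
    have d3 := c2.1 (by linarith)
    have d4 : x.2 < ρ - ‖h‖ := by
      by_contra hcc
      linarith [c2.2 (not_lt.mp hcc)]
    rw [mem_Qr]
    refine ⟨⟨by linarith, by linarith⟩, by linarith, by linarith⟩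

lemma Aset_meas (ρ t : ℝ) : MeasurableSet (Aset ρ t) := measurableSet_Icc.union measurableSet_Icc

lemma Aset_vol (ρ t : ℝ) (ht : 0 ≤ t) : volume (Aset ρ t) ≤ ENNReal.ofReal (4 * t) := by
  refine (measure_union_le _ _).trans ?_
  rw [Real.volume_Icc, Real.volume_Icc, ← ENNReal.ofReal_add (by linarith) (by linarith)]
  apply ENNReal.ofReal_le_ofReal
  linarith

lemma diff1 (ρ : ℝ) (h0 : 0 < ρ) (h : ℝ × ℝ) (hh : ‖h‖ ≤ ρ) :
    ∫⁻ x, ‖gq ρ (x + h) - gq ρ x‖ₑ ^ 2 ≤ ENNReal.ofReal (24 * ρ * ‖h‖) := by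
  have hn := norm_nonneg h
  set T : Set (ℝ × ℝ) := (Aset ρ ‖h‖ ×ˢ Icc (-ρ) (2 * ρ)) ∪ (Icc (-ρ) (2 * ρ) ×ˢ Aset ρ ‖h‖) with hT
  have hTm : MeasurableSet T := ((Aset_meas _ _).prod measurableSet_Icc).union
    (measurableSet_Icc.prod (Aset_meas _ _))
  have h1 : ∀ x, ‖gq ρ (x + h) - gq ρ x‖ₑ ^ 2 ≤ T.indicator (fun _ => (1 : ℝ≥0∞)) x := by
    intro x
    by_cases hx : gq ρ (x + h) = gq ρ x
    · rw [hx, sub_self]
      simp
    · rw [indicator_of_mem (diff_sub ρ h hh x hx)]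
      have h2 : ‖gq ρ (x + h) - gq ρ x‖ₑ ≤ 1 := by
        by_cases a : x + h ∈ Qr ρ <;> by_cases c : x ∈ Qr ρ
        · rw [gq_in a, gq_in c]; simp
        · rw [gq_in a, gq_out c]; simp
        · rw [gq_out a, gq_in c]; simp
        · rw [gq_out a, gq_out c]; simp
      calc ‖gq ρ (x + h) - gq ρ x‖ₑ ^ 2 ≤ 1 ^ 2 := pow_le_pow_left' h2 2
        _ = 1 := one_pow 2
  refine (lintegral_mono h1).trans ?_
  rw [lintegral_indicator hTm, setLIntegral_one]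
  refine (measure_union_le _ _).trans ?_
  rw [Measure.volume_eq_prod, Measure.prod_prod, Measure.prod_prod, Real.volume_Icc]
  have h3 := Aset_vol ρ ‖h‖ hn
  calc volume (Aset ρ ‖h‖) * ENNReal.ofReal (2 * ρ - -ρ) +
        ENNReal.ofReal (2 * ρ - -ρ) * volume (Aset ρ ‖h‖)
      ≤ ENNReal.ofReal (4 * ‖h‖) * ENNReal.ofReal (2 * ρ - -ρ) +
        ENNReal.ofReal (2 * ρ - -ρ) * ENNReal.ofReal (4 * ‖h‖) := by gcongr
    _ = ENNReal.ofReal (24 * ρ * ‖h‖) := by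
        rw [← ENNReal.ofReal_mul (by positivity), ← ENNReal.ofReal_mul (by linarith),
          ← ENNReal.ofReal_add (by nlinarith [mul_nonneg h0.le hn]) (by nlinarith [mul_nonneg h0.le hn])]
        congr 1
        ring

lemma diff2 (ρ : ℝ) (h0 : 0 < ρ) (h : ℝ × ℝ) :
    ∫⁻ x, ‖gq ρ (x + h) - gq ρ x‖ₑ ^ 2 ≤ ENNReal.ofReal (2 * ρ ^ 2) := by
  have h1 : ∀ x, ‖gq ρ (x + h) - gq ρ x‖ₑ ^ 2 ≤ ‖gq ρ (x + h)‖ₑ ^ 2 + ‖gq ρ x‖ₑ ^ 2 := by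
    intro x
    by_cases a : x + h ∈ Qr ρ <;> by_cases c : x ∈ Qr ρ
    · rw [gq_in a, gq_in c]; simp
    · rw [gq_in a, gq_out c]; simp
    · rw [gq_out a, gq_in c]; simp
    · rw [gq_out a, gq_out c]; simp
  refine (lintegral_mono h1).trans ?_
  rw [lintegral_add_right _ ((gq_meas ρ).enorm.pow_const 2),
    lintegral_add_right_eq_self (fun x => ‖gq ρ x‖ₑ ^ 2) h, int_sq ρ h0,
    ← ENNReal.ofReal_add (by positivity) (by positivity)]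
  apply le_of_eq
  congr 1
  ring

lemma diff3 (ρ s : ℝ) (h0 : 0 < ρ) (hs : 0 < s) (hs1 : s < 1 / 2) (h : ℝ × ℝ) :
    ∫⁻ x, ‖gq ρ (x + h) - gq ρ x‖ₑ ^ 2 ≤ ENNReal.ofReal (24 * (ρ ^ (2 - 2 * s) * ‖h‖ ^ (2 * s))) := by
  rcases eq_or_lt_of_le (norm_nonneg h) with hz | hz
  · have : h = 0 := norm_eq_zero.mp hz.symm
    rw [this]
    simp
  have hρ3 : ρ ^ (2 - 2 * s) * ρ ^ (2 * s) = ρ ^ 2 := by
    rw [← Real.rpow_add h0, sub_add_cancel]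
    exact_mod_cast Real.rpow_natCast ρ 2
  have hρp : 0 < ρ ^ (2 - 2 * s) := Real.rpow_pos_of_pos h0 _
  have hδp : 0 < ‖h‖ ^ (2 * s) := Real.rpow_pos_of_pos hz _
  by_cases hc : ‖h‖ ≤ ρ
  · refine (diff1 ρ h0 h hc).trans (ENNReal.ofReal_le_ofReal ?_)
    have h4 : ‖h‖ = ‖h‖ ^ (1 - 2 * s) * ‖h‖ ^ (2 * s) := by
      rw [← Real.rpow_add hz, sub_add_cancel, Real.rpow_one]
    have h5 : ‖h‖ ^ (1 - 2 * s) ≤ ρ ^ (1 - 2 * s) := Real.rpow_le_rpow hz.le hc (by linarith)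
    have h6 : ρ * ρ ^ (1 - 2 * s) = ρ ^ (2 - 2 * s) := by
      have : (2 - 2 * s) = 1 + (1 - 2 * s) := by ring
      rw [this, Real.rpow_add h0, Real.rpow_one]
    have h7 : ρ * ‖h‖ ≤ ρ ^ (2 - 2 * s) * ‖h‖ ^ (2 * s) := by
      calc ρ * ‖h‖ = ρ * (‖h‖ ^ (1 - 2 * s) * ‖h‖ ^ (2 * s)) := by rw [← h4]
        _ ≤ ρ * (ρ ^ (1 - 2 * s) * ‖h‖ ^ (2 * s)) := by gcongr
        _ = _ := by rw [← mul_assoc, h6]
    linarith
  · push Not at hc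
    refine (diff2 ρ h0 h).trans (ENNReal.ofReal_le_ofReal ?_)
    have h5 : ρ ^ (2 * s) ≤ ‖h‖ ^ (2 * s) := Real.rpow_le_rpow h0.le hc.le (by linarith)
    have h6 : ρ ^ 2 ≤ ρ ^ (2 - 2 * s) * ‖h‖ ^ (2 * s) := by
      rw [← hρ3]
      exact mul_le_mul_of_nonneg_left h5 hρp.le
    have h7 : 0 ≤ ρ ^ (2 - 2 * s) * ‖h‖ ^ (2 * s) := by positivity
    linarith

lemma gq_reg (ρ s : ℝ) (h0 : 0 < ρ) (h1 : ρ ≤ 1 / 10) (hs : 0 < s) (hs1 : s < 1 / 2) :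
    Reg (gq ρ) s (Real.toNNReal (5 * ρ ^ (1 - s))) := by
  have hρp : 0 < ρ ^ (1 - s) := Real.rpow_pos_of_pos h0 _
  refine ⟨gq_meas ρ, ?_, ?_, ?_⟩
  · intro x hx
    apply gq_out
    intro hm
    rw [mem_Qr] at hm
    nlinarith
  · rw [Pool.Agent.Y250.PT.l2_eq, int_sq ρ h0, ENNReal.ofReal_rpow_of_nonneg (by positivity)
      (by norm_num)]
    apply ENNReal.ofReal_le_ofReal
    have e : (ρ ^ 2) ^ (1 / 2 : ℝ) = ρ := by
      rw [← Real.sqrt_eq_rpow, Real.sqrt_sq h0.le]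
    rw [e]
    have h3 : ρ ^ (1 : ℝ) ≤ ρ ^ (1 - s) :=
      Real.rpow_le_rpow_of_exponent_ge h0 (by linarith) (by linarith)
    rw [Real.rpow_one] at h3
    linarith
  · intro h
    rw [Pool.Agent.Y250.PT.l2_eq]
    have h2 := ENNReal.rpow_le_rpow (diff3 ρ s h0 hs hs1 h) (show (0 : ℝ) ≤ 1 / 2 by norm_num)
    refine h2.trans ?_
    rw [ENNReal.ofReal_rpow_of_nonneg (by positivity) (by norm_num)]
    change _ ≤ ENNReal.ofReal (5 * ρ ^ (1 - s)) * ENNReal.ofReal (‖h‖ ^ s)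
    rw [← ENNReal.ofReal_mul (by positivity)]
    apply ENNReal.ofReal_le_ofReal
    rw [← Real.sqrt_eq_rpow]
    apply Real.sqrt_le_iff.mpr
    refine ⟨by positivity, ?_⟩
    have e1 : (ρ ^ (1 - s)) ^ 2 = ρ ^ (2 - 2 * s) := by
      rw [← Real.rpow_natCast, ← Real.rpow_mul h0.le]
      congr 1
      push_cast
      ring
    have e2 : (‖h‖ ^ s) ^ 2 = ‖h‖ ^ (2 * s) := by
      rw [← Real.rpow_natCast, ← Real.rpow_mul (norm_nonneg h)]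
      congr 1
      push_cast
      ring
    rw [mul_pow, mul_pow, e1, e2]
    have h7 : 0 ≤ ρ ^ (2 - 2 * s) * ‖h‖ ^ (2 * s) := by positivity
    linarith

/-- the box -/
def Bx (a c : ℝ) : Set (ℝ × ℝ × ℝ) := Icc (-a) a ×ˢ (Icc (-a) a ×ˢ Icc (-c) c)

lemma Bx_meas (a c : ℝ) : MeasurableSet (Bx a c) :=
  measurableSet_Icc.prod (measurableSet_Icc.prod measurableSet_Icc)

lemma Bx_vol (a c : ℝ) (ha : 0 ≤ a) (hc : 0 ≤ c) :
    volume (Bx a c) = ENNReal.ofReal (8 * a * a * c) := by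
  unfold Bx
  rw [Measure.volume_eq_prod, Measure.prod_prod, Measure.volume_eq_prod, Measure.prod_prod,
    Real.volume_Icc, Real.volume_Icc, ← ENNReal.ofReal_mul (by linarith),
    ← ENNReal.ofReal_mul (by linarith)]
  congr 1
  ring

lemma ext_ge (ρ : ℝ) (h0 : 0 < ρ) (ξ : ℝ × ℝ × ℝ) (hξ : ξ ∈ Bx (1 / (4 * ρ)) (1 / (4 * ρ ^ 2))) :
    ρ ^ 2 / 2 ≤ ‖Pool.Agent.Y250.PT.ext univ (gq ρ) ξ‖ := by
  unfold Bx at hξ
  simp only [mem_prod, mem_Icc] at hξ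
  obtain ⟨⟨a1, a2⟩, ⟨b1, b2⟩, c1, c2⟩ := hξ
  set G : ℝ × ℝ → ℂ := fun x =>
    cexp (((-(x.1 * ξ.1 + x.2 * ξ.2.1 + (x.1 ^ 2 + x.2 ^ 2) * ξ.2.2) : ℝ) : ℂ) * I) with hG
  have hGc : Continuous G := by
    rw [hG]
    fun_prop
  have e1 : Pool.Agent.Y250.PT.ext univ (gq ρ) ξ = ∫ x in Qr ρ, G x := by
    unfold Pool.Agent.Y250.PT.ext
    rw [setIntegral_univ, ← integral_indicator (Qr_meas ρ)]
    congr 1
    ext x
    by_cases hx : x ∈ Qr ρ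
    · rw [indicator_of_mem hx, gq_in hx, mul_one, hG]
      simp only
      push_cast
      ring_nf
    · rw [indicator_of_notMem hx, gq_out hx, mul_zero]
  rw [e1]
  have hfin : IsFiniteMeasure ((volume : Measure (ℝ × ℝ)).restrict (Qr ρ)) := ⟨by
    rw [Measure.restrict_apply_univ, Qr_vol ρ h0]
    exact ENNReal.ofReal_lt_top⟩
  have hGi : Integrable G (volume.restrict (Qr ρ)) := by
    apply Integrable.of_bound hGc.aestronglyMeasurable 1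
    exact ae_of_all _ fun x => by
      rw [hG]
      simp only
      rw [Complex.norm_exp_ofReal_mul_I]
  refine le_trans ?_ (Complex.re_le_norm _)
  have hre : (∫ x in Qr ρ, G x).re = ∫ x in Qr ρ, (G x).re := (integral_re hGi).symm
  rw [hre]
  have hle : ∫ _x in Qr ρ, (1 / 2 : ℝ) ≤ ∫ x in Qr ρ, (G x).re := by
    apply setIntegral_mono_on (integrable_const _) hGi.re (Qr_meas ρ)
    intro x hx
    rw [mem_Qr] at hx
    obtain ⟨⟨p1, p2⟩, p3, p4⟩ := hx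
    change 1 / 2 ≤ (G x).re
    rw [hG]
    simp only
    rw [Complex.exp_ofReal_mul_I_re]
    set u : ℝ := -(x.1 * ξ.1 + x.2 * ξ.2.1 + (x.1 ^ 2 + x.2 ^ 2) * ξ.2.2) with hu
    have t1 : |x.1 * ξ.1| ≤ 1 / 4 := by
      rw [abs_mul]
      calc |x.1| * |ξ.1| ≤ ρ * (1 / (4 * ρ)) := by
            apply mul_le_mul _ (abs_le.mpr ⟨a1, a2⟩) (abs_nonneg _) h0.le
            rw [abs_of_nonneg p1]
            exact p2
        _ = 1 / 4 := by field_simp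
    have t2 : |x.2 * ξ.2.1| ≤ 1 / 4 := by
      rw [abs_mul]
      calc |x.2| * |ξ.2.1| ≤ ρ * (1 / (4 * ρ)) := by
            apply mul_le_mul _ (abs_le.mpr ⟨b1, b2⟩) (abs_nonneg _) h0.le
            rw [abs_of_nonneg p3]
            exact p4
        _ = 1 / 4 := by field_simp
    have t3 : |(x.1 ^ 2 + x.2 ^ 2) * ξ.2.2| ≤ 1 / 2 := by
      rw [abs_mul]
      calc |x.1 ^ 2 + x.2 ^ 2| * |ξ.2.2| ≤ (2 * ρ ^ 2) * (1 / (4 * ρ ^ 2)) := by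
            apply mul_le_mul _ (abs_le.mpr ⟨c1, c2⟩) (abs_nonneg _) (by positivity)
            rw [abs_of_nonneg (by positivity)]
            nlinarith
        _ = 1 / 2 := by
            field_simp
            norm_num
    have t4 : |u| ≤ 1 := by
      rw [hu, abs_neg]
      calc |x.1 * ξ.1 + x.2 * ξ.2.1 + (x.1 ^ 2 + x.2 ^ 2) * ξ.2.2|
          ≤ |x.1 * ξ.1| + |x.2 * ξ.2.1| + |(x.1 ^ 2 + x.2 ^ 2) * ξ.2.2| := abs_add_three _ _ _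
        _ ≤ 1 := by linarith
    have h4 := Real.one_sub_sq_div_two_le_cos (x := u)
    have h5 : u ^ 2 ≤ 1 := by
      rw [← sq_abs]
      nlinarith [abs_nonneg u]
    linarith
  refine le_trans ?_ hle
  rw [setIntegral_const, smul_eq_mul, Measure.real, Qr_vol ρ h0, ENNReal.toReal_ofReal (by positivity)]
  linarith

/-- **optimality of the regularity** -/
theorem knapp (q s : ℝ) (hq : 3 < q) (hs : 0 < s) (hsq : s < 4 / q - 1) (C : ℝ≥0) :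
    ∃ (g : ℝ × ℝ → ℂ) (K : ℝ≥0), Reg g s K ∧
      (C * K : ℝ≥0∞) < eLpNorm (Pool.Agent.Y250.PT.ext univ g) (ENNReal.ofReal q) volume := by
  have hq0 : 0 < q := by linarith
  have h4q : 4 / q < 4 / 3 := by
    rw [div_lt_div_iff₀ hq0 (by norm_num)]
    linarith
  have hs1 : s < 1 / 2 := by linarith
  set c₁ : ℝ := (1 / 8 : ℝ) ^ (1 / q) with hc₁
  have hc₁0 : 0 < c₁ := Real.rpow_pos_of_pos (by norm_num) _
  obtain ⟨ρ, h0, h1, h2⟩ := Pool.Agent.Y25.SS.exists_rho (4 / q - 1 - s) (10 * C) c₁ (by linarith) hc₁0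
  refine ⟨gq ρ, Real.toNNReal (5 * ρ ^ (1 - s)), gq_reg ρ s h0 h1 hs hs1, ?_⟩
  set B : Set (ℝ × ℝ × ℝ) := Bx (1 / (4 * ρ)) (1 / (4 * ρ ^ 2)) with hB
  have hlow : eLpNorm (B.indicator fun _ => (ρ ^ 2 / 2 : ℝ)) (ENNReal.ofReal q) volume ≤
      eLpNorm (Pool.Agent.Y250.PT.ext univ (gq ρ)) (ENNReal.ofReal q) volume := by
    apply eLpNorm_mono
    intro ξ
    by_cases h : ξ ∈ B
    · rw [indicator_of_mem h, Real.norm_eq_abs, abs_of_nonneg (by positivity)]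
      exact ext_ge ρ h0 ξ h
    · rw [indicator_of_notMem h, norm_zero]
      exact norm_nonneg _
  refine lt_of_lt_of_le ?_ hlow
  have hqne : ENNReal.ofReal q ≠ 0 := by
    rw [Ne, ENNReal.ofReal_eq_zero]
    linarith
  rw [eLpNorm_indicator_const (Bx_meas _ _) hqne ENNReal.ofReal_ne_top,
    Bx_vol _ _ (by positivity) (by positivity), ENNReal.toReal_ofReal hq0.le]
  have hv : 8 * (1 / (4 * ρ)) * (1 / (4 * ρ)) * (1 / (4 * ρ ^ 2)) = (1 / 8) * ρ ^ (-4 : ℝ) := by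
    have : ρ ^ (-4 : ℝ) = (ρ ^ 4)⁻¹ := by
      rw [Real.rpow_neg h0.le]
      congr 1
      exact_mod_cast Real.rpow_natCast ρ 4
    rw [this]
    field_simp
    norm_num
  rw [hv, ENNReal.ofReal_rpow_of_nonneg (by positivity) (by positivity)]
  have he : ‖(ρ ^ 2 / 2 : ℝ)‖ₑ = ENNReal.ofReal (ρ ^ 2 / 2) :=
    Real.enorm_of_nonneg (by positivity)
  rw [he, ← ENNReal.ofReal_mul (by positivity)]
  have hC : (C : ℝ≥0∞) = ENNReal.ofReal (C : ℝ) := (ENNReal.ofReal_coe_nnreal).symm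
  rw [show ((Real.toNNReal (5 * ρ ^ (1 - s)) : ℝ≥0) : ℝ≥0∞) =
      ENNReal.ofReal (5 * ρ ^ (1 - s)) from rfl, hC, ← ENNReal.ofReal_mul (NNReal.coe_nonneg C)]
  have hkey : (C : ℝ) * (5 * ρ ^ (1 - s)) <
      ρ ^ 2 / 2 * ((1 / 8) * ρ ^ (-4 : ℝ)) ^ (1 / q) := by
    rw [Real.mul_rpow (by norm_num) (by positivity), ← hc₁, ← Real.rpow_mul h0.le]
    have h3 : ρ ^ 2 / 2 * (c₁ * ρ ^ (-4 * (1 / q))) = c₁ * ρ ^ (2 - 4 / q) / 2 := by
      have h4 : ρ ^ (2 - 4 / q) = ρ ^ 2 * ρ ^ (-4 * (1 / q)) := by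
        have : 2 - 4 / q = 2 + -4 * (1 / q) := by ring
        rw [this, Real.rpow_add h0]
        congr 1
        exact_mod_cast Real.rpow_natCast ρ 2
      rw [h4]
      ring
    have h5 : ρ ^ (1 - s) = ρ ^ (4 / q - 1 - s) * ρ ^ (2 - 4 / q) := by
      rw [← Real.rpow_add h0]
      congr 1
      ring
    rw [h3, h5]
    have h6 : 0 < ρ ^ (2 - 4 / q) := Real.rpow_pos_of_pos h0 _
    have h7 := mul_lt_mul_of_pos_right h2 h6
    linarith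
  exact (ENNReal.ofReal_lt_ofReal_iff_of_nonneg (by positivity)).2 hkey

end Pool.Agent.Y250.PV
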