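import Pool.Agent.Y250.PV.V4
import Pool.Agent.Y250.PT.G
set_option autoImplicit false

/-! Smooth and analytic phases, with the sharp regularity. -/

namespace Pool.Agent.Y250.PV

open MeasureTheory Set Complex Filter Topology
open scoped ENNReal NNReal
open Pool.Agent.Y250.PT (Reg J J_bdd J_mul Dk)

/-- **large multiples of a smooth phase** -/
theorem large3 (q s : ℝ) (hq : 3 < q) (hs0 : 0 < s) (hs : 4 / q - 1 < s) (hs1 : s ≤ 1)
    (φ : ℝ × ℝ → ℝ) (hφ : ∀ n : ℕ, ContDiff ℝ n φ) (ε : ℝ) (hε : 0 < ε) :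
    ∃ C : ℝ≥0, ∀ (t : ℝ) (g : ℝ × ℝ → ℂ) (V : ℝ≥0), 1 ≤ |t| → Reg g s V →
      eLpNorm (Pool.Agent.Y250.PT.ext univ fun x => cexp (I * ((t * φ x : ℝ) : ℂ)) * g x)
        (ENNReal.ofReal q) volume ≤ C * ENNReal.ofReal (|t| ^ ε) * V := by
  obtain ⟨C, hC⟩ := smooth3 q s hq hs0 hs hs1
  obtain ⟨n, hn⟩ := exists_nat_gt (3 / ε)
  set m : ℕ := n + 1 with hm
  have hm0 : (0 : ℝ) < m := by rw [hm]; push_cast; positivity
  have hmε : (3 : ℝ) / m ≤ ε := by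
    rw [div_le_iff₀ hm0]
    have h1 : 3 / ε < m := by rw [hm]; push_cast; linarith
    rw [div_lt_iff₀ hε] at h1
    linarith
  obtain ⟨M, hM⟩ := J_bdd φ (m + 1) (hφ (m + 1))
  set A : ℝ≥0 := (M / m.factorial) ^ ((3 : ℝ) / m) with hA
  refine ⟨C * ((1 + m) ^ 5 * (1 + A)), ?_⟩
  intro t g V ht hg
  set L : ℝ≥0 := ⟨|t|, abs_nonneg t⟩ with hL
  have hL1 : 1 ≤ L := ht
  have h1 := hC m (fun x => t * φ x) (L * M) g V (by omega)
    (contDiff_const.mul (hφ (m + 1))) (fun i j hij x hx => by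
      rw [J_mul, abs_mul, NNReal.coe_mul]
      exact mul_le_mul_of_nonneg_left (hM i j hij x hx) (abs_nonneg _)) hg
  refine h1.trans ?_
  have h5 : ENNReal.ofReal (|t| ^ ε) = ((L ^ ε : ℝ≥0) : ℝ≥0∞) := by
    rw [ENNReal.ofReal, Real.toNNReal_of_nonneg (by positivity)]
    rfl
  have h2 : (1 + m : ℝ≥0) ^ 5 * (1 + (L * M / m.factorial) ^ ((3 : ℝ) / m)) * V ≤
      ((1 + m) ^ 5 * (1 + A)) * L ^ ε * V := by
    have h3 : (L * M / m.factorial) ^ ((3 : ℝ) / m) = L ^ ((3 : ℝ) / m) * A := by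
      rw [mul_div_assoc, NNReal.mul_rpow]
    have h4 : L ^ ((3 : ℝ) / m) ≤ L ^ ε := NNReal.rpow_le_rpow_of_exponent_le hL1 hmε
    have h5 : (1 : ℝ≥0) ≤ L ^ ε := NNReal.one_le_rpow hL1 hε.le
    rw [h3]
    calc (1 + m : ℝ≥0) ^ 5 * (1 + L ^ ((3 : ℝ) / m) * A) * V
        ≤ (1 + m : ℝ≥0) ^ 5 * (L ^ ε + L ^ ε * A) * V := by gcongr
      _ = _ := by ring
  rw [h5, ← ENNReal.coe_mul, ← ENNReal.coe_mul, ← ENNReal.coe_mul, ENNReal.coe_le_coe]
  refine (mul_le_mul' le_rfl h2).trans (le_of_eq ?_)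
  ring

/-- **analytic phases** -/
theorem ana3 (q s : ℝ) (hq : 3 < q) (hs0 : 0 < s) (hs : 4 / q - 1 < s) (hs1 : s ≤ 1) :
    ∃ C : ℝ≥0, ∀ (φ : ℝ × ℝ → ℝ) (A R : ℝ) (g : ℝ × ℝ → ℂ) (V : ℝ≥0), 0 ≤ A → 1 ≤ R →
      (∀ n : ℕ, ContDiff ℝ n φ) →
      (∀ k : ℕ, 2 ≤ k → ∀ i j : ℕ, i + j = k → ∀ x ∈ Dk, |J φ i j x| ≤ A * R ^ k * k.factorial) →
      Reg g s V →
      eLpNorm (Pool.Agent.Y250.PT.ext univ fun x => cexp (I * (φ x : ℂ)) * g x)
        (ENNReal.ofReal q) volume ≤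
        C * ENNReal.ofReal (R ^ 6 * (2 + Real.log (1 + A)) ^ 5) * V := by
  obtain ⟨C, hC⟩ := smooth3 q s hq hs0 hs hs1
  refine ⟨C * (32 * (1 + 8 * ⟨Real.exp 3, (Real.exp_pos 3).le⟩)), ?_⟩
  intro φ A R g V hA hR hφ hder hg
  have hlog : 0 ≤ Real.log (1 + A) := Real.log_nonneg (by linarith)
  set n : ℕ := 1 + ⌈Real.log (1 + A)⌉₊ with hn
  have hn1 : 1 ≤ n := by omega
  have hn0 : (0 : ℝ) < n := by exact_mod_cast hn1
  have hn1' : (1 : ℝ) ≤ n := by exact_mod_cast hn1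
  have hn3 : Real.log (1 + A) ≤ n := by
    have h1 := Nat.le_ceil (Real.log (1 + A))
    rw [hn]
    push_cast
    linarith
  have hn4 : (1 : ℝ) + n ≤ 2 * (2 + Real.log (1 + A)) := by
    have h1 := (Nat.ceil_lt_add_one hlog).le
    rw [hn]
    push_cast
    linarith
  have hf0 : (0 : ℝ) < (n.factorial : ℕ) := by exact_mod_cast Nat.factorial_pos _
  set M : ℝ≥0 := ⟨A * R ^ (n + 1) * (n + 1).factorial, by positivity⟩ with hM
  have hMe : (M : ℝ) = A * R ^ (n + 1) * (n + 1).factorial := rfl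
  have h1 := hC n φ M g V hn1 (by exact_mod_cast hφ (n + 1)) (fun i j hij x hx =>
    hder (n + 1) (by omega) i j hij x hx) hg
  refine h1.trans ?_
  have hR0 : (0 : ℝ) < R := by linarith
  have hpow : (M / n.factorial) ^ ((3 : ℝ) / n) ≤
      8 * ⟨Real.exp 3, (Real.exp_pos 3).le⟩ * ⟨R ^ 6, by positivity⟩ := by
    rw [← NNReal.coe_le_coe]
    push_cast
    rw [hMe]
    change (A * R ^ (n + 1) * (n + 1).factorial / (n.factorial : ℝ)) ^ ((3 : ℝ) / n) ≤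
      8 * Real.exp 3 * R ^ 6
    have e1 : A * R ^ (n + 1) * (n + 1).factorial / (n.factorial : ℝ) =
        A * (R ^ (n + 1) * (n + 1 : ℕ)) := by
      rw [Nat.factorial_succ]
      push_cast
      field_simp
    rw [e1]
    have h2n : ((n + 1 : ℕ) : ℝ) ≤ (2 : ℝ) ^ n := by
      have : n + 1 ≤ 2 ^ n := Nat.lt_two_pow_self
      exact_mod_cast this
    calc (A * (R ^ (n + 1) * (n + 1 : ℕ))) ^ ((3 : ℝ) / n)
        ≤ ((1 + A) * (R ^ (2 * n) * (2 : ℝ) ^ n)) ^ ((3 : ℝ) / n) := by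
          apply Real.rpow_le_rpow (by positivity) _ (by positivity)
          have c1 : R ^ (n + 1) ≤ R ^ (2 * n) := pow_le_pow_right₀ hR (by omega)
          have c2 : A ≤ 1 + A := by linarith
          gcongr
      _ = (1 + A) ^ ((3 : ℝ) / n) * (R ^ 6 * 8) := by
          rw [Real.mul_rpow (by positivity) (by positivity), Real.mul_rpow (by positivity)
            (by positivity), ← Real.rpow_natCast R (2 * n), ← Real.rpow_mul hR0.le,
            ← Real.rpow_natCast 2 n, ← Real.rpow_mul (by norm_num)]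
          have d1 : ((2 * n : ℕ) : ℝ) * (3 / n) = 6 := by
            push_cast
            field_simp
            norm_num
          have d2 : (n : ℝ) * (3 / n) = 3 := by field_simp
          rw [d1, d2]
          norm_num
      _ ≤ Real.exp 3 * (R ^ 6 * 8) := by
          have a1 : (1 + A) ^ ((3 : ℝ) / n) ≤ Real.exp 3 := by
            rw [Real.rpow_def_of_pos (by positivity)]
            apply Real.exp_le_exp.mpr
            rw [mul_div_assoc', div_le_iff₀ hn0]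
            linarith
          gcongr
      _ = _ := by ring
  have hR6 : (1 : ℝ≥0) ≤ ⟨R ^ 6, by positivity⟩ := by
    change (1 : ℝ) ≤ R ^ 6
    exact one_le_pow₀ hR
  have hF0 : 0 ≤ R ^ 6 * (2 + Real.log (1 + A)) ^ 5 := by positivity
  have hfin : (1 + n : ℝ≥0) ^ 5 * (1 + (M / n.factorial) ^ ((3 : ℝ) / n)) * V ≤
      (32 * (1 + 8 * ⟨Real.exp 3, (Real.exp_pos 3).le⟩)) *
        NNReal.mk (R ^ 6 * (2 + Real.log (1 + A)) ^ 5) hF0 * V := by
    refine mul_le_mul' ?_ le_rfl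
    have hk5 : (1 + n : ℝ≥0) ^ 5 ≤ 32 * ⟨(2 + Real.log (1 + A)) ^ 5, by positivity⟩ := by
      rw [← NNReal.coe_le_coe]
      push_cast
      change (1 + n : ℝ) ^ 5 ≤ 32 * (2 + Real.log (1 + A)) ^ 5
      calc (1 + n : ℝ) ^ 5 ≤ (2 * (2 + Real.log (1 + A))) ^ 5 := by gcongr
        _ = _ := by ring
    have hx : 1 + (M / n.factorial) ^ ((3 : ℝ) / n) ≤
        (1 + 8 * ⟨Real.exp 3, (Real.exp_pos 3).le⟩) * ⟨R ^ 6, by positivity⟩ := by
      rw [add_mul, one_mul]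
      exact add_le_add hR6 hpow
    calc (1 + n : ℝ≥0) ^ 5 * (1 + (M / n.factorial) ^ ((3 : ℝ) / n))
        ≤ (32 * ⟨(2 + Real.log (1 + A)) ^ 5, by positivity⟩) *
          ((1 + 8 * ⟨Real.exp 3, (Real.exp_pos 3).le⟩) * ⟨R ^ 6, by positivity⟩) :=
          mul_le_mul' hk5 hx
      _ = _ := by
          rw [← NNReal.coe_inj]
          push_cast
          change 32 * (2 + Real.log (1 + A)) ^ 5 * ((1 + 8 * Real.exp 3) * R ^ 6) =
            32 * (1 + 8 * Real.exp 3) * (R ^ 6 * (2 + Real.log (1 + A)) ^ 5)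
          ring
  have e9 : ENNReal.ofReal (R ^ 6 * (2 + Real.log (1 + A)) ^ 5) =
      (NNReal.mk (R ^ 6 * (2 + Real.log (1 + A)) ^ 5) hF0 : ℝ≥0∞) := by
    rw [ENNReal.ofReal, Real.toNNReal_of_nonneg hF0]
  rw [e9, ← ENNReal.coe_mul, ← ENNReal.coe_mul, ← ENNReal.coe_mul, ENNReal.coe_le_coe]
  have e10 : ∀ E F : ℝ≥0, C * (E * F * V) = C * E * F * V := fun E F => by ring
  exact (mul_le_mul' le_rfl hfin).trans (le_of_eq (e10 _ _))

end Pool.Agent.Y250.PV
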