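import Pool.Agent.Y250.PT.Q
import Pool.Agent.Y183.TS.D
set_option autoImplicit false

/-! The theorem of Tomas and Stein for the paraboloid, in two real coordinates. -/

namespace Pool.Agent.Y250.PV

open MeasureTheory Set Complex Filter Topology
open scoped ENNReal NNReal
open Pool.Agent.Y183.PP (ch Poly ev ev_Ph ev_cont SQ SQ_meas SQ_vol Ph)
open Pool.Agent.Y250.PT (ext ext_norm exx l2_eq)
open Pool.Agent.W771.MD (qe)
open Pool.Agent.Y183.LS (BA)

theorem ts_ext (q : ℝ) (hq : 4 < q) : ∃ C : ℝ≥0, ∀ (φ : Poly) (f : ℝ × ℝ → ℂ), Measurable f →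
    (∀ x, x ∉ SQ → f x = 0) → eLpNorm f 2 volume ≠ ∞ →
    eLpNorm (ext univ (fun x => cexp (I * (ev φ x : ℂ)) * f x)) (ENNReal.ofReal q) volume ≤
      C * eLpNorm f 2 volume := by
  have hq0 : 0 < q := by linarith
  have hpi := Real.pi_pos
  obtain ⟨C, hC⟩ := Pool.Agent.Y183.TS.tomas 2 (by norm_num) q (by norm_num; linarith)
  have hfin : (ENNReal.ofReal ((2 * Real.pi) ^ 3)) ^ (1 / q) ≠ ∞ :=
    ENNReal.rpow_ne_top_of_nonneg (by positivity) ENNReal.ofReal_ne_top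
  refine ⟨((ENNReal.ofReal ((2 * Real.pi) ^ 3)) ^ (1 / q)).toNNReal * C, ?_⟩
  rw [ENNReal.coe_mul, ENNReal.coe_toNNReal hfin]
  intro φ f hf hsup hf2
  rw [ext_norm q hq0 φ f hf hsup]
  set e : (Fin 2 → ℝ) ≃ᵐ ℝ × ℝ := MeasurableEquiv.finTwoArrow with he
  have hemp : MeasurePreserving e volume volume := volume_preserving_finTwoArrow ℝ
  have he1 : ∀ v : Fin 2 → ℝ, e v = (v 0, v 1) := fun v => rfl
  set H : (Fin 2 → ℝ) → ℂ := fun v => f (e v) * cexp (I * (ev φ (e v) : ℂ)) with hH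
  have hexp : Measurable fun x : ℝ × ℝ => cexp (I * (ev φ x : ℂ)) := by
    apply Continuous.measurable
    have := ev_cont φ
    fun_prop
  have hHm : Measurable H := (hf.comp e.measurable).mul (hexp.comp e.measurable)
  have hn : ∀ x : ℝ × ℝ, ‖cexp (I * (ev φ x : ℂ))‖ₑ = 1 := by
    intro x
    rw [← ofReal_norm, mul_comm, Complex.norm_exp_ofReal_mul_I, ENNReal.ofReal_one]
  have h2 : ∫⁻ v, ‖H v‖ₑ ^ 2 ≤ (eLpNorm f 2 volume) ^ 2 := by
    have h3 : ∫⁻ v, ‖H v‖ₑ ^ 2 = ∫⁻ x : ℝ × ℝ, ‖f x‖ₑ ^ 2 := by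
      rw [← hemp.lintegral_comp (hf.enorm.pow_const 2)]
      apply lintegral_congr
      intro v
      rw [hH]
      simp only [enorm_mul, hn, mul_one]
    rw [h3, l2_eq, ← ENNReal.rpow_natCast, ← ENNReal.rpow_mul]
    norm_num
  have h4 := hC H hHm (eLpNorm f 2 volume) hf2 h2
  -- the operators agree
  have h5 : ∀ (t : ℝ) (y : Fin 2 → ℝ), ∫ z in SQ, f z * exx (Ph φ (e y) t) z =
      ∫ v in BA 1 2, H v * Pool.Agent.W771.MD.em y t v := by
    intro t y
    have e1 : BA 1 2 = e ⁻¹' SQ := by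
      ext v
      simp only [BA, mem_Icc, mem_preimage, he1, SQ, mem_prod, Pi.le_def, Fin.forall_fin_two]
      tauto
    rw [e1, ← hemp.setIntegral_preimage_emb e.measurableEmbedding]
    apply setIntegral_congr_fun (e.measurable SQ_meas)
    intro v _
    simp only [hH]
    rw [mul_assoc]
    congr 1
    unfold exx Pool.Agent.Y183.PP.ex Pool.Agent.W771.MD.em qe
    rw [Fin.prod_univ_two, ev_Ph, ← Complex.exp_add, ← Complex.exp_add]
    congr 1
    simp only [he1]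
    push_cast
    ring
  have h6 : ∀ t : ℝ, ∫⁻ y : ℝ × ℝ, ‖∫ z in SQ, f z * exx (Ph φ y t) z‖ₑ ^ q =
      ∫⁻ y : Fin 2 → ℝ, ‖∫ v in BA 1 2, H v * Pool.Agent.W771.MD.em y t v‖ₑ ^ q := by
    intro t
    simp only [← h5]
    have hm : Measurable fun y : ℝ × ℝ => ‖∫ z in SQ, f z * exx (Ph φ y t) z‖ₑ ^ q := by
      apply Measurable.pow_const
      apply Measurable.enorm
      apply StronglyMeasurable.measurable
      apply StronglyMeasurable.integral_prod_right'
        (f := fun w : (ℝ × ℝ) × (ℝ × ℝ) => f w.2 * exx (Ph φ w.1 t) w.2)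
      apply Measurable.stronglyMeasurable
      apply (hf.comp measurable_snd).mul
      unfold exx Pool.Agent.Y183.PP.ex
      simp only [ev_Ph]
      apply Continuous.measurable
      have := ev_cont φ
      fun_prop
    exact (hemp.lintegral_comp hm).symm
  simp only [h6]
  calc (ENNReal.ofReal ((2 * Real.pi) ^ 3) * ∫⁻ t : ℝ, ∫⁻ y : Fin 2 → ℝ,
        ‖∫ v in BA 1 2, H v * Pool.Agent.W771.MD.em y t v‖ₑ ^ q) ^ (1 / q)
      ≤ (ENNReal.ofReal ((2 * Real.pi) ^ 3) * (C * eLpNorm f 2 volume) ^ q) ^ (1 / q) := by gcongr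
    _ = _ := by
        rw [ENNReal.mul_rpow_of_nonneg _ _ (by positivity), ← ENNReal.rpow_mul,
          mul_one_div_cancel hq0.ne', ENNReal.rpow_one, mul_assoc]

end Pool.Agent.Y250.PV
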