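import Pool.Agent.Y250.PV.V1
set_option autoImplicit false

/-! Telescoping for the paraboloid. -/

namespace Pool.Agent.Y250.PV

open MeasureTheory Set Complex Filter Topology
open scoped ENNReal NNReal
open Pool.Agent.Y183.PP (ch Poly ev ev_Ph ev_cont SQ SQ_meas SQ_vol Ph)
open Pool.Agent.Y250.PT hiding box_ext

/-- an estimate for averages over small squares -/
def Box (q κ : ℝ) (C : ℝ≥0) : Prop := ∀ (D : ℕ) (φ : Poly), φ.totalDegree ≤ D → ∀ δ : ℝ, 0 < δ →
  ∀ H : ℝ × ℝ → ℂ, Integrable H → Measurable H → (∀ x : ℝ × ℝ, x ∉ SQ → av δ H x = 0) →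
    eLpNorm (ext univ (fun x => cexp (I * (ev φ x : ℂ)) * av δ H x)) (ENNReal.ofReal q) volume ≤
      C * ENNReal.ofReal ((1 + D : ℝ) ^ 5) * ENNReal.ofReal (δ ^ (-κ)) * eLpNorm H 2 volume

/-- **telescoping** -/
theorem reg_of (q s κ : ℝ) (hq1 : 1 ≤ q) (hκ0 : 0 ≤ κ) (hκ1 : κ ≤ 1) (hκs : κ < s) (C : ℝ≥0)
    (hC : Box q κ C) : ∃ C : ℝ≥0, ∀ (D : ℕ) (φ : Poly),
    φ.totalDegree ≤ D → ∀ (g : ℝ × ℝ → ℂ) (K : ℝ≥0), Reg g s K →
      eLpNorm (ext univ fun x => cexp (I * (ev φ x : ℂ)) * g x) (ENNReal.ofReal q) volume ≤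
        C * ((1 + D) ^ 5 * K : ℝ≥0) := by
  have hq0 : 0 < q := by linarith
  have hs0 : 0 < s := by linarith
  set ρ : ℝ := s - κ with hρ
  have hρ0 : 0 < ρ := by linarith
  -- the series
  set a : ℕ → ℝ≥0∞ := fun i => ENNReal.ofReal (((1 / 2 : ℝ) ^ (i + 1)) ^ ρ) with ha
  have hsum : ∑' i, a i ≠ ∞ := by
    have e1 : ∀ i : ℕ, a i = ENNReal.ofReal ((1 / 2 : ℝ) ^ ρ) * ENNReal.ofReal ((1 / 2 : ℝ) ^ ρ) ^ i := by
      intro i
      simp only [ha]
      rw [← ENNReal.ofReal_pow (by positivity), ← ENNReal.ofReal_mul (by positivity), ← pow_succ',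
        ← Real.rpow_natCast, ← Real.rpow_mul (by norm_num), ← Real.rpow_natCast, ← Real.rpow_mul (by norm_num),
        mul_comm ρ]
    simp only [e1]
    rw [ENNReal.tsum_mul_left, ENNReal.tsum_geometric]
    apply ENNReal.mul_ne_top ENNReal.ofReal_ne_top
    rw [ne_eq, ENNReal.inv_eq_top, tsub_eq_zero_iff_le, not_le, ← ENNReal.ofReal_one]
    apply (ENNReal.ofReal_lt_ofReal_iff (by norm_num)).mpr
    exact Real.rpow_lt_one (by norm_num) (by norm_num) hρ0
  refine ⟨C * (2 + ∑' i, a i).toNNReal, ?_⟩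
  have hfin : (2 + ∑' i, a i) ≠ ∞ := ENNReal.add_ne_top.mpr ⟨by norm_num, hsum⟩
  rw [ENNReal.coe_mul, ENNReal.coe_toNNReal hfin]
  intro D φ hφ g K hg
  set B : ℝ≥0∞ := ENNReal.ofReal ((1 + D : ℝ) ^ 5) with hB
  have hBe : (((1 + D) ^ 5 * K : ℝ≥0) : ℝ≥0∞) = B * K := by
    rw [ENNReal.coe_mul, hB]
    congr 1
    rw [← ENNReal.ofReal_coe_nnreal]
    push_cast
    rfl
  rw [hBe]
  set T : (ℝ × ℝ → ℂ) → (ℝ × ℝ × ℝ → ℂ) := fun f => ext univ fun x => cexp (I * (ev φ x : ℂ)) * f x with hT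
  have hgi := hg.int
  set d : ℕ → ℝ := fun n => (1 / 2 : ℝ) ^ (n + 1) with hd
  have hd0 : ∀ n, 0 < d n := fun n => by simp only [hd]; positivity
  have hd1 : ∀ n, d n ≤ 1 / 2 := fun n => by
    simp only [hd]
    rw [pow_succ]
    have : (1 / 2 : ℝ) ^ n ≤ 1 := pow_le_one₀ (by norm_num) (by norm_num)
    linarith
  have hd2 : ∀ n, 2 * d (n + 1) = d n := fun n => by
    simp only [hd]
    rw [pow_succ (1 / 2 : ℝ) (n + 1)]
    ring
  have havi : ∀ n, Integrable (av (d n) g) := by
    intro n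
    apply int_of (av (d n) g) (av_meas _ _ hg.meas) (0 + d n) (hg.sp.av)
    have h1 := av_sq (d n) (hd0 n) g hg.meas
    rw [l2_eq]
    have h2 := hg.two
    rw [l2_eq] at h2
    exact ((ENNReal.rpow_le_rpow h1 (by norm_num)).trans h2 |>.trans_lt ENNReal.coe_lt_top).ne
  have hTm : ∀ f : ℝ × ℝ → ℂ, Measurable f → AEStronglyMeasurable (T f) volume := fun f hf =>
    (ext_meas univ _ ((exp_ev_meas φ).mul hf)).aestronglyMeasurable
  -- the bound for the averages
  have hbound : ∀ n, eLpNorm (T (av (d n) g)) (ENNReal.ofReal q) volume ≤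
      C * B * K * (2 + ∑ i ∈ Finset.range n, a (i + 1)) := by
    intro n
    induction n with
    | zero =>
      have h1 := hC D φ hφ (d 0) (hd0 0) g hgi hg.meas
        ((hg.sp.av (δ := d 0)).sq (by linarith [hd1 0]))
      rw [Finset.sum_range_zero, add_zero]
      refine h1.trans ?_
      have h2 : ENNReal.ofReal ((d 0) ^ (-(κ))) ≤ 2 := by
        rw [show (2 : ℝ≥0∞) = ENNReal.ofReal 2 by norm_num]
        apply ENNReal.ofReal_le_ofReal
        simp only [hd]
        rw [zero_add, pow_one, Real.rpow_neg (by norm_num), one_div, Real.inv_rpow (by norm_num), inv_inv]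
        calc (2 : ℝ) ^ (κ) ≤ (2 : ℝ) ^ (1 : ℝ) := Real.rpow_le_rpow_of_exponent_le (by norm_num) hκ1
          _ = 2 := Real.rpow_one 2
      calc (C : ℝ≥0∞) * B * ENNReal.ofReal ((d 0) ^ (-(κ))) * eLpNorm g 2 volume
          ≤ (C : ℝ≥0∞) * B * 2 * K := by
            gcongr
            exact hg.two
        _ = _ := by ring
    | succ n ih =>
      set H : ℝ × ℝ → ℂ := fun x => g x - mn (d (n + 1)) g x with hH
      have hmi := mn_int (d (n + 1)) g hgi
      have hHi : Integrable H := hgi.sub hmi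
      have hHm : Measurable H := hg.meas.sub (mn_meas _ g hg.meas)
      have hHs : Sp (0 + d (n + 1)) H := by
        intro x hx
        have h1 := (hg.sp.mono (show (0 : ℝ) ≤ 0 + d (n + 1) by linarith [hd0 (n + 1)])) x hx
        have h2 := (hg.sp.mn (hd0 (n + 1)).le) x hx
        simp only [hH]
        rw [h1, h2, sub_zero]
      have e1 : av (d (n + 1)) g = fun x => av (d n) g x + av (d (n + 1)) H x := by
        ext x
        rw [hH, av_sub _ _ _ hgi hmi, ← av_double _ (hd0 (n + 1)) g hgi, hd2 n]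
        ring
      have hsq : Sp (0 + d (n + 1) + d (n + 1)) (av (d (n + 1)) H) := hHs.av
      have hle : 0 + d (n + 1) + d (n + 1) ≤ 1 / 2 := by
        have := hd1 n
        rw [← hd2 n] at this
        linarith
      have hHa : Integrable (av (d (n + 1)) H) := by
        apply int_of _ (av_meas _ _ hHm) _ hsq
        rw [l2_eq]
        have h1 := av_sq (d (n + 1)) (hd0 (n + 1)) H hHm
        have h2 := incr hg hs0.le (d (n + 1)) (hd0 _).le
        rw [l2_eq] at h2
        exact ((ENNReal.rpow_le_rpow h1 (by norm_num)).trans h2 |>.trans_lt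
          (ENNReal.mul_lt_top ENNReal.coe_lt_top ENNReal.ofReal_lt_top)).ne
      have h1 := hC D φ hφ (d (n + 1)) (hd0 _) H hHi hHm (hsq.sq hle)
      have h2 := incr hg hs0.le (d (n + 1)) (hd0 _).le
      have h3 : eLpNorm (T (av (d (n + 1)) H)) (ENNReal.ofReal q) volume ≤ C * B * K * a (n + 1) := by
        refine h1.trans ?_
        calc (C : ℝ≥0∞) * B * ENNReal.ofReal ((d (n + 1)) ^ (-(κ))) * eLpNorm H 2 volume
            ≤ (C : ℝ≥0∞) * B * ENNReal.ofReal ((d (n + 1)) ^ (-(κ))) *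
              (K * ENNReal.ofReal ((d (n + 1)) ^ s)) := by gcongr
          _ = (C : ℝ≥0∞) * B * K * (ENNReal.ofReal ((d (n + 1)) ^ (-(κ))) *
              ENNReal.ofReal ((d (n + 1)) ^ s)) := by ring
          _ = _ := by
              congr 1
              rw [← ENNReal.ofReal_mul (Real.rpow_nonneg (hd0 _).le _), ← Real.rpow_add (hd0 _)]
              simp only [ha, hd, hρ]
              congr 2
              ring
      have e2 : T (av (d (n + 1)) g) = T (av (d n) g) + T (av (d (n + 1)) H) := by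
        simp only [hT]
        rw [e1]
        exact ext_add φ _ _ (havi n) hHa
      rw [e2]
      refine (eLpNorm_add_le (hTm _ (av_meas _ _ hg.meas)) (hTm _ (av_meas _ _ hHm)) (by
        rw [← ENNReal.ofReal_one]
        exact ENNReal.ofReal_le_ofReal (by linarith))).trans ?_
      refine (add_le_add ih h3).trans (le_of_eq ?_)
      rw [Finset.sum_range_succ]
      ring
  -- the limit
  have hlim : ∀ ξ, Tendsto (fun n => T (av (d n) g) ξ) atTop (𝓝 (T g ξ)) := by
    intro ξ
    rw [tendsto_iff_edist_tendsto_0]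
    have hz : Tendsto (fun n => 2 * ((K : ℝ≥0∞) * ENNReal.ofReal ((d n) ^ s))) atTop (𝓝 0) := by
      have h1 : Tendsto (fun n => (d n) ^ s) atTop (𝓝 0) := by
        have h2 : Tendsto d atTop (𝓝 0) := by
          have := (tendsto_pow_atTop_nhds_zero_of_lt_one (by norm_num : (0 : ℝ) ≤ 1 / 2) (by norm_num)).comp
            (tendsto_add_atTop_nat 1)
          exact this
        have h3 := h2.rpow_const (p := s) (Or.inr hs0.le)
        rwa [Real.zero_rpow hs0.ne'] at h3
      have h4 : Tendsto (fun n => ENNReal.ofReal ((d n) ^ s)) atTop (𝓝 0) := by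
        have := ENNReal.tendsto_ofReal h1
        rwa [ENNReal.ofReal_zero] at this
      have h5 := ENNReal.Tendsto.const_mul h4 (Or.inr (ENNReal.mul_ne_top (by norm_num : (2 : ℝ≥0∞) ≠ ∞)
        (ENNReal.coe_ne_top (r := K))))
      rw [mul_zero] at h5
      refine h5.congr fun n => ?_
      ring
    refine tendsto_of_tendsto_of_tendsto_of_le_of_le tendsto_const_nhds hz (fun n => zero_le) (fun n => ?_)
    simp only
    rw [edist_eq_enorm_sub]
    have h1 := ext_sup φ (av (d n) g) g (havi n) hgi ξ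
    refine h1.trans ?_
    refine (l1_l2 _ ((av_meas _ _ hg.meas).sub hg.meas) ?_).trans ?_
    · intro x hx
      rw [Pi.sub_apply, (hg.sp.av (δ := d n)).sq (by linarith [hd1 n]) x hx,
        hg.sp.sq (by norm_num) x hx, sub_zero]
    · gcongr
      exact close2 hg hs0.le (d n) (hd0 n)
  have hfat := Lp.eLpNorm_lim_le_liminf_eLpNorm (p := ENNReal.ofReal q) (μ := volume)
    (fun n => hTm _ (av_meas (d n) g hg.meas)) (T g) (ae_of_all _ hlim)
  refine hfat.trans ?_
  have hall : ∀ n, eLpNorm (T (av (d n) g)) (ENNReal.ofReal q) volume ≤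
      C * (2 + ∑' i, a i) * (B * K) := by
    intro n
    refine (hbound n).trans ?_
    have h1 : ∑ i ∈ Finset.range n, a (i + 1) ≤ ∑' i, a i := by
      have h2 : ∑ i ∈ Finset.range n, a (i + 1) ≤ ∑ i ∈ Finset.range (n + 1), a i := by
        rw [Finset.sum_range_succ']
        exact le_self_add
      exact h2.trans (ENNReal.sum_le_tsum _)
    calc (C : ℝ≥0∞) * B * K * (2 + ∑ i ∈ Finset.range n, a (i + 1))
        ≤ (C : ℝ≥0∞) * B * K * (2 + ∑' i, a i) := by gcongr
      _ = _ := by ring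
  exact (liminf_le_liminf (Eventually.of_forall hall)).trans (by simp)

end Pool.Agent.Y250.PV
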