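import Pool.Agent.Y250.PV.V2
import Pool.Agent.Y250.SS.A8
set_option autoImplicit false

/-! Interpolation with the theorem of Tomas and Stein, and polynomial phases. -/

namespace Pool.Agent.Y250.PV

open MeasureTheory Set Complex Filter Topology
open scoped ENNReal NNReal
open Pool.Agent.Y183.PP (ch Poly ev ev_Ph ev_cont SQ SQ_meas SQ_vol Ph)
open Pool.Agent.Y250.PT hiding box_ext
open Pool.Agent.Y250.SS (lcv)

theorem box_I (q s : ℝ) (hq : 3 < q) (hs0 : 0 < s) (hs : 4 / q - 1 < s) (hs1 : s ≤ 1) :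
    ∃ (κ : ℝ) (C : ℝ≥0), 0 ≤ κ ∧ κ ≤ 1 ∧ κ < s ∧ Box q κ C := by
  have hq0 : 0 < q := by linarith
  have hav2 : ∀ (δ : ℝ) (_ : 0 < δ) (f : ℝ × ℝ → ℂ), Measurable f →
      eLpNorm (av δ f) 2 volume ≤ eLpNorm f 2 volume := by
    intro δ hδ f hf
    rw [l2_eq, l2_eq]
    exact ENNReal.rpow_le_rpow (av_sq δ hδ f hf) (by norm_num)
  have hB1 : ∀ D : ℕ, (1 : ℝ≥0∞) ≤ ENNReal.ofReal ((1 + D : ℝ) ^ 5) := by
    intro D
    rw [← ENNReal.ofReal_one]
    apply ENNReal.ofReal_le_ofReal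
    exact one_le_pow₀ (by linarith [(Nat.cast_nonneg D : (0 : ℝ) ≤ D)])
  -- averages have finite norm or there is nothing to prove
  by_cases hq4 : 4 < q
  · obtain ⟨C, hC⟩ := ts_ext q hq4
    refine ⟨0, C + 1, le_rfl, zero_le_one, hs0, ?_⟩
    intro D φ hφ δ hδ H hHi hHm hH
    rw [neg_zero, Real.rpow_zero, ENNReal.ofReal_one, mul_one]
    by_cases h2 : eLpNorm H 2 volume = ∞
    · rw [h2, ENNReal.mul_top]
      · exact le_top
      · have := hB1 D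
        simp only [ne_eq, mul_eq_zero, not_or]
        refine ⟨by simp, ?_⟩
        exact (lt_of_lt_of_le zero_lt_one this).ne'
    · have h3 := hC φ (av δ H) (av_meas δ H hHm) hH
        ((hav2 δ hδ H hHm).trans_lt (lt_top_iff_ne_top.mpr h2)).ne
      refine h3.trans ?_
      calc (C : ℝ≥0∞) * eLpNorm (av δ H) 2 volume
          ≤ ((C + 1 : ℝ≥0) : ℝ≥0∞) * ENNReal.ofReal ((1 + D : ℝ) ^ 5) * eLpNorm H 2 volume := by
            have a1 : (C : ℝ≥0∞) ≤ ((C + 1 : ℝ≥0) : ℝ≥0∞) * ENNReal.ofReal ((1 + D : ℝ) ^ 5) := by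
              calc (C : ℝ≥0∞) ≤ ((C + 1 : ℝ≥0) : ℝ≥0∞) * 1 := by
                    rw [mul_one]
                    exact_mod_cast le_self_add
                _ ≤ _ := mul_le_mul' le_rfl (hB1 D)
            exact mul_le_mul' a1 (hav2 δ hδ H hHm)
        _ = _ := rfl
  · have hq4' : q ≤ 4 := not_lt.mp hq4
    set a : ℝ := 4 / q - 1 with ha
    have ha0 : 0 ≤ a := by
      rw [ha, sub_nonneg, le_div_iff₀ hq0]
      linarith
    have ha3 : a ≤ 1 / 3 := by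
      rw [ha, sub_le_iff_le_add, div_le_iff₀ hq0]
      linarith
    have hq3 : 1 / q ≤ 1 / 3 := one_div_le_one_div_of_le (by norm_num) hq.le
    set ε : ℝ := min (1 / 2) (min ((s - a) / 2) ((q - 3) / 2)) with hε
    have hε0 : 0 < ε := lt_min (by norm_num) (lt_min (by linarith) (by linarith))
    have hε1 : ε ≤ 1 / 2 := min_le_left _ _
    have hε2 : ε ≤ (s - a) / 2 := (min_le_right _ _).trans (min_le_left _ _)
    have hε3 : ε ≤ (q - 3) / 2 := (min_le_right _ _).trans (min_le_right _ _)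
    set κ : ℝ := (1 + ε) * ((4 + ε) / q - 1) with hκ
    have e2 : (4 + ε) / q - 1 = a + ε * (1 / q) := by rw [ha]; ring
    have hq1' : 0 < 1 / q := by positivity
    have h2n : 0 ≤ (4 + ε) / q - 1 := by rw [e2]; positivity
    have hκ0 : 0 ≤ κ := by positivity
    have hκs : κ < s := by
      have h3 : κ ≤ a + ε := by
        rw [hκ, e2]
        nlinarith [mul_nonneg hε0.le ha0, mul_nonneg hε0.le hq1'.le, mul_nonneg hε0.le hε0.le]
      linarith
    set l : ℝ := (4 + ε) * (1 - (3 + ε) / q) with hl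
    have hl' : 1 - l = (3 + ε) * ((4 + ε) / q - 1) := by
      rw [hl]
      field_simp
      ring
    have hl0 : 0 ≤ l := by
      have : (3 + ε) / q ≤ 1 := by rw [div_le_one hq0]; linarith
      have h1 : 0 ≤ 1 - (3 + ε) / q := by linarith
      positivity
    have hl1 : 0 ≤ 1 - l := by rw [hl']; positivity
    have hlpos : 0 < l := by
      have : (3 + ε) / q < 1 := by rw [div_lt_one hq0]; linarith
      have h1 : 0 < 1 - (3 + ε) / q := by linarith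
      positivity
    obtain ⟨C0, hC0⟩ := Pool.Agent.Y250.PT.box_ext (3 + ε) (1 + ε) (by linarith) (by linarith)
    obtain ⟨C1, hC1⟩ := ts_ext (4 + ε) (by linarith)
    refine ⟨κ, (C0 + 1) ^ (1 - l) * (C1 + 1) ^ l, hκ0, by linarith, hκs, ?_⟩
    intro D φ hφ δ hδ H hHi hHm hH
    set N : ℝ≥0∞ := eLpNorm H 2 volume with hN
    set b : ℝ≥0∞ := ENNReal.ofReal ((1 + D : ℝ) ^ 5) with hb
    have hb1 : 1 ≤ b := hB1 D
    have hconst : (((C0 + 1) ^ (1 - l) * (C1 + 1) ^ l : ℝ≥0) : ℝ≥0∞) =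
        ((C0 + 1 : ℝ≥0) : ℝ≥0∞) ^ (1 - l) * ((C1 + 1 : ℝ≥0) : ℝ≥0∞) ^ l := by
      rw [ENNReal.coe_mul, ENNReal.coe_rpow_of_nonneg _ hl1, ENNReal.coe_rpow_of_nonneg _ hl0]
    by_cases h2 : N = ∞
    · rw [h2, ENNReal.mul_top]
      · exact le_top
      · have h3 : ENNReal.ofReal (δ ^ (-κ)) ≠ 0 := by
          rw [ne_eq, ENNReal.ofReal_eq_zero, not_le]
          positivity
        have h4 : b ≠ 0 := (lt_of_lt_of_le zero_lt_one hb1).ne'
        have h5 : (((C0 + 1) ^ (1 - l) * (C1 + 1) ^ l : ℝ≥0) : ℝ≥0∞) ≠ 0 := by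
          rw [ne_eq, ENNReal.coe_eq_zero]
          positivity
        exact mul_ne_zero (mul_ne_zero h5 h4) h3
    have h1 := hC1 φ (av δ H) (av_meas δ H hHm) hH
      ((hav2 δ hδ H hHm).trans_lt (lt_top_iff_ne_top.mpr h2)).ne
    have h2 := hC0 D φ hφ δ hδ H hHi hHm hH
    have h3 := lcv (μ := volume) (ext univ (fun x => cexp (I * (ev φ x : ℂ)) * av δ H x))
      (ext_meas univ _ ((exp_ev_meas φ).mul (av_meas δ H hHm))).aestronglyMeasurable
      (3 + ε) (4 + ε) q l (by linarith) (by linarith) hq0 hl0 (by linarith) (by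
        rw [hl', hl]
        field_simp
        ring)
    refine h3.trans ?_
    rw [hconst]
    set F : ℝ × ℝ × ℝ → ℂ := ext univ (fun x => cexp (I * (ev φ x : ℂ)) * av δ H x) with hF
    have h1' : eLpNorm F (ENNReal.ofReal (4 + ε)) volume ≤ ((C1 + 1 : ℝ≥0) : ℝ≥0∞) * N := by
      refine h1.trans (mul_le_mul' ?_ (hav2 δ hδ H hHm))
      exact_mod_cast le_self_add
    have h2' : eLpNorm F (ENNReal.ofReal (3 + ε)) volume ≤ ((C0 + 1 : ℝ≥0) : ℝ≥0∞) * b *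
        ENNReal.ofReal (δ ^ (-((1 + ε) / (3 + ε)))) * N := by
      refine h2.trans ?_
      have : (C0 : ℝ≥0∞) ≤ ((C0 + 1 : ℝ≥0) : ℝ≥0∞) := by exact_mod_cast le_self_add
      gcongr
    have hb' : b ^ (1 - l) ≤ b := by
      calc b ^ (1 - l) ≤ b ^ (1 : ℝ) := ENNReal.rpow_le_rpow_of_exponent_le hb1 (by linarith)
        _ = b := ENNReal.rpow_one _
    have hNN : N ^ (1 - l) * N ^ l = N := by
      rw [← ENNReal.rpow_add_of_nonneg _ _ hl1 hl0, sub_add_cancel, ENNReal.rpow_one]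
    have hδ' : ENNReal.ofReal (δ ^ (-((1 + ε) / (3 + ε)))) ^ (1 - l) = ENNReal.ofReal (δ ^ (-κ)) := by
      rw [ENNReal.ofReal_rpow_of_pos (by positivity), ← Real.rpow_mul hδ.le]
      congr 2
      rw [hl', hκ]
      have : (3 + ε) ≠ 0 := by linarith
      field_simp
    calc eLpNorm F (ENNReal.ofReal (3 + ε)) volume ^ (1 - l) *
          eLpNorm F (ENNReal.ofReal (4 + ε)) volume ^ l
        ≤ (((C0 + 1 : ℝ≥0) : ℝ≥0∞) * b * ENNReal.ofReal (δ ^ (-((1 + ε) / (3 + ε)))) * N) ^ (1 - l) *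
          (((C1 + 1 : ℝ≥0) : ℝ≥0∞) * N) ^ l := by gcongr
      _ = ((C0 + 1 : ℝ≥0) : ℝ≥0∞) ^ (1 - l) * ((C1 + 1 : ℝ≥0) : ℝ≥0∞) ^ l * b ^ (1 - l) *
          ENNReal.ofReal (δ ^ (-κ)) * (N ^ (1 - l) * N ^ l) := by
          rw [ENNReal.mul_rpow_of_nonneg _ _ hl1, ENNReal.mul_rpow_of_nonneg _ _ hl1,
            ENNReal.mul_rpow_of_nonneg _ _ hl1, ENNReal.mul_rpow_of_nonneg _ _ hl0, hδ']
          ring
      _ ≤ ((C0 + 1 : ℝ≥0) : ℝ≥0∞) ^ (1 - l) * ((C1 + 1 : ℝ≥0) : ℝ≥0∞) ^ l * b *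
          ENNReal.ofReal (δ ^ (-κ)) * N := by
          rw [hNN]
          gcongr

/-- **polynomial phases, amplitudes of the sharp regularity** -/
theorem reg_poly2 (q s : ℝ) (hq : 3 < q) (hs0 : 0 < s) (hs : 4 / q - 1 < s) (hs1 : s ≤ 1) :
    ∃ C : ℝ≥0, ∀ (D : ℕ) (φ : Poly),
    φ.totalDegree ≤ D → ∀ (g : ℝ × ℝ → ℂ) (K : ℝ≥0), Reg g s K →
      eLpNorm (ext univ fun x => cexp (I * (ev φ x : ℂ)) * g x) (ENNReal.ofReal q) volume ≤
        C * ((1 + D) ^ 5 * K : ℝ≥0) := by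
  obtain ⟨κ, C, hκ0, hκ1, hκs, hC⟩ := box_I q s hq hs0 hs hs1
  exact reg_of q s κ (by linarith) hκ0 hκ1 hκs C hC

end Pool.Agent.Y250.PV
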