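import Pool.Agent.Y250.PV.V3
set_option autoImplicit false

/-! Phases with bounded derivatives: the final estimate with the sharp regularity. -/

namespace Pool.Agent.Y250.PV

open MeasureTheory Set Complex Filter Topology
open scoped ENNReal NNReal
open Pool.Agent.Y183.PP (Poly ev)
open Pool.Agent.Y250.PT

/-- **phases close to polynomials on small squares** -/
theorem cells3 (q s : ℝ) (hq : 3 < q) (hs0 : 0 < s) (hs : 4 / q - 1 < s) (hs1 : s ≤ 1) : ∃ C : ℝ≥0, ∀ (n N : ℕ)
    (φ : ℝ × ℝ → ℝ) (M : ℝ) (g : ℝ × ℝ → ℂ) (V : ℝ≥0), 0 < N → ContDiff ℝ (n + 1 : ℕ) φ → 0 ≤ M →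
      (∀ i j, i + j = n + 1 → ∀ x ∈ Dk, |J φ i j x| ≤ M) → M * (4 / N) ^ n / n.factorial ≤ 1 →
      Reg g s V →
      eLpNorm (ext univ fun x => cexp (I * (φ x : ℂ)) * g x) (ENNReal.ofReal q) volume ≤
        C * (((N + 1) ^ 3 * (1 + n) ^ 5) * V : ℝ≥0) := by
  obtain ⟨C, hC⟩ := reg_poly2 q s hq hs0 hs hs1
  have hq0 : 0 < q := by linarith
  refine ⟨9 * C, ?_⟩
  intro n N φ M g V hN hφ hM hJ hNM hg
  have hφd : Differentiable ℝ φ := hφ.differentiable (by simp)
  have hN' : (0 : ℝ) < N := by exact_mod_cast hN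
  have hout : ∀ x, x ∉ Dk → g x = 0 := by
    intro x hx
    apply hg.supp
    simp only [Dk, mem_ofPred_eq, not_le] at hx
    exact hx
  set f : ℝ × ℝ → ℂ := fun x => cexp (I * (φ x : ℂ)) * g x with hf
  have hfm : Measurable f := by
    apply Measurable.mul _ hg.meas
    apply Continuous.measurable
    have c1 := hφd.continuous
    fun_prop
  have hfi : Integrable f := by
    apply hg.int.bdd_mul (c := 1)
    · apply Continuous.aestronglyMeasurable
      have c1 := hφd.continuous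
      fun_prop
    · exact ae_of_all _ fun x => by rw [mul_comm I, Complex.norm_exp_ofReal_mul_I]
  -- one cell
  have hcell : ∀ a b : ℕ, eLpNorm (ext univ fun x => (cf N a b x : ℂ) * f x) (ENNReal.ofReal q) volume ≤
        C * ((1 + n) ^ 5 * ((1 + 2 * (2 * N + 2)) * V) : ℝ≥0) := by
    intro a b
    rcases (Kc N a b).eq_empty_or_nonempty with hKe | ⟨c, hc⟩
    · have e : (ext univ fun x => (cf N a b x : ℂ) * f x) = fun _ => 0 := by
        ext ξ
        unfold Pool.Agent.Y250.PT.ext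
        rw [← integral_zero (ℝ × ℝ) ℂ (μ := volume.restrict univ)]
        apply integral_congr_ae
        refine ae_of_all _ fun x => ?_
        simp only
        by_cases h : x ∈ Dk
        · rw [cf_out N a b x h (by rw [hKe]; exact notMem_empty x)]
          simp
        · simp only [hf]
          rw [hout x h]
          simp
      rw [e]
      simp
    · obtain ⟨T, hTd, hT⟩ := tay_grad (Kc N a b) (Kc_conv N a b) c hc M n φ hφ
        (fun i j hij x hx => hJ i j hij x hx.2)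
      have hdist : ∀ x ∈ Kc N a b, |x.1 - c.1| + |x.2 - c.2| ≤ 4 / N := by
        intro x hx
        have a1 := abs_le.mp hx.1.1
        have a2 := abs_le.mp hx.1.2
        have a3 := abs_le.mp hc.1.1
        have a4 := abs_le.mp hc.1.2
        have b1 : |x.1 - c.1| ≤ 2 / N := by
          have e : |x.1 - c.1| * N = |(x.1 - c.1) * N| := by rw [abs_mul, abs_of_pos hN']
          rw [le_div_iff₀ hN', e, abs_le]
          constructor <;> nlinarith [a1.1, a1.2, a3.1, a3.2]
        have b2 : |x.2 - c.2| ≤ 2 / N := by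
          have e : |x.2 - c.2| * N = |(x.2 - c.2) * N| := by rw [abs_mul, abs_of_pos hN']
          rw [le_div_iff₀ hN', e, abs_le]
          constructor <;> nlinarith [a2.1, a2.2, a4.1, a4.2]
        calc _ ≤ (2 : ℝ) / N + 2 / N := add_le_add b1 b2
          _ = 4 / N := by ring
      have hR : ∀ x ∈ Kc N a b, M * (|x.1 - c.1| + |x.2 - c.2|) ^ n / n.factorial ≤ 1 := by
        intro x hx
        refine le_trans ?_ hNM
        have := hdist x hx
        gcongr
      have hamp := cell_reg s hs0 hs1 g V hg N a b hN φ hφd T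
        (fun x hx => (hT x hx).1.trans (hR x hx)) (fun x hx => (hT x hx).2.trans (hR x hx))
      have h1 := hC n T hTd _ _ hamp
      refine le_trans (le_of_eq ?_) h1
      congr 1
      ext ξ
      unfold Pool.Agent.Y250.PT.ext
      apply integral_congr_ae
      refine ae_of_all _ fun x => ?_
      simp only [hf]
      congr 1
      have e : cexp (I * (φ x : ℂ)) = cexp (I * (ev T x : ℂ)) * cexp (I * ((φ x - ev T x : ℝ) : ℂ)) := by
        rw [← Complex.exp_add]
        congr 1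
        push_cast
        ring
      rw [e]
      ring
  -- the sum
  have hint : ∀ (a b : ℕ) (ξ : ℝ × ℝ × ℝ), Integrable (fun x : ℝ × ℝ =>
      cexp (-((x.1 * ξ.1 + x.2 * ξ.2.1 + (x.1 ^ 2 + x.2 ^ 2) * ξ.2.2 : ℝ) : ℂ) * I) *
        ((cf N a b x : ℂ) * f x)) (volume.restrict univ) := by
    intro a b ξ
    rw [Measure.restrict_univ]
    have h1 : Integrable fun x => (cf N a b x : ℂ) * f x := by
      apply hfi.bdd_mul (c := 1)
      · apply Continuous.aestronglyMeasurable
        have c1 := cf_cont N a b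
        fun_prop
      · refine ae_of_all _ fun x => ?_
        rw [Complex.norm_real, Real.norm_eq_abs, abs_of_nonneg (cf_nonneg _ _ _ _)]
        exact cf_le _ _ _ _
    apply h1.bdd_mul (c := 1)
    · apply Continuous.aestronglyMeasurable
      fun_prop
    · exact ae_of_all _ fun x => by rw [← Complex.ofReal_neg, Complex.norm_exp_ofReal_mul_I]
  have hsum : ext univ f = ∑ a ∈ Finset.range (N + 1), ∑ b ∈ Finset.range (N + 1),
      ext univ fun x => (cf N a b x : ℂ) * f x := by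
    ext ξ
    simp only [Finset.sum_apply]
    unfold Pool.Agent.Y250.PT.ext
    simp_rw [← integral_finsetSum _ (fun b _ => hint _ b ξ)]
    rw [← integral_finsetSum _ (fun a _ => integrable_finsetSum _ (fun b _ => hint a b ξ))]
    apply integral_congr_ae
    refine ae_of_all _ fun x => ?_
    simp only
    simp_rw [← Finset.mul_sum, ← Finset.sum_mul]
    congr 1
    by_cases h : x ∈ Dk
    · have h1 := cf_sum N x h
      have h2 : ∑ a ∈ Finset.range (N + 1), ∑ b ∈ Finset.range (N + 1), (cf N a b x : ℂ) = 1 := by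
        rw [← Complex.ofReal_one, ← h1]
        push_cast
        rfl
      rw [h2, one_mul]
    · simp only [hf]
      rw [hout x h, mul_zero, mul_zero]
  rw [hsum]
  have hq1 : 1 ≤ ENNReal.ofReal q := by
    rw [← ENNReal.ofReal_one]
    exact ENNReal.ofReal_le_ofReal (by linarith)
  have hme : ∀ a b : ℕ, AEStronglyMeasurable (ext univ fun x => (cf N a b x : ℂ) * f x) volume := by
    intro a b
    apply (ext_meas univ _ _).aestronglyMeasurable
    apply Measurable.mul _ hfm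
    have c1 := cf_cont N a b
    apply Continuous.measurable
    fun_prop
  refine (eLpNorm_sum_le (fun a _ => Finset.aestronglyMeasurable_sum _ (fun b _ => hme a b)) hq1).trans ?_
  have hN1 : (1 : ℝ≥0) ≤ N := by exact_mod_cast hN
  calc ∑ a ∈ Finset.range (N + 1), eLpNorm (∑ b ∈ Finset.range (N + 1),
        ext univ fun x => (cf N a b x : ℂ) * f x) (ENNReal.ofReal q) volume
      ≤ ∑ a ∈ Finset.range (N + 1), ∑ b ∈ Finset.range (N + 1),
          eLpNorm (ext univ fun x => (cf N a b x : ℂ) * f x) (ENNReal.ofReal q) volume :=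
        Finset.sum_le_sum fun a _ => eLpNorm_sum_le (fun b _ => hme a b) hq1
    _ ≤ ∑ a ∈ Finset.range (N + 1), ∑ b ∈ Finset.range (N + 1),
          (C * ((1 + n) ^ 5 * ((1 + 2 * (2 * N + 2)) * V) : ℝ≥0) : ℝ≥0∞) :=
        Finset.sum_le_sum fun a _ => Finset.sum_le_sum fun b _ => hcell a b
    _ = (((N + 1) * ((N + 1) * (C * ((1 + n) ^ 5 * ((1 + 2 * (2 * N + 2)) * V)))) : ℝ≥0) : ℝ≥0∞) := by
        rw [Finset.sum_const, Finset.sum_const, Finset.card_range, nsmul_eq_mul, nsmul_eq_mul]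
        push_cast
        ring
    _ ≤ ((9 * C * ((N + 1) ^ 3 * (1 + n) ^ 5 * V) : ℝ≥0) : ℝ≥0∞) := by
        rw [ENNReal.coe_le_coe]
        have h5 : (1 + 2 * (2 * N + 2) : ℝ≥0) ≤ 9 * (N + 1) := by
          calc (1 + 2 * (2 * N + 2) : ℝ≥0) = 4 * N + 5 := by ring
            _ ≤ 9 * N + 9 := by gcongr <;> norm_num
            _ = 9 * (N + 1) := by ring
        calc (N + 1) * ((N + 1) * (C * ((1 + n) ^ 5 * ((1 + 2 * (2 * N + 2)) * V))))
            ≤ (N + 1) * ((N + 1) * (C * ((1 + n) ^ 5 * (9 * (N + 1) * V)))) := by gcongr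
          _ = _ := by ring
    _ = _ := by
        rw [ENNReal.coe_mul]

/-- **phases with bounded derivatives of order `n + 1`, amplitudes of the sharp regularity** -/
theorem smooth3 (q s : ℝ) (hq : 3 < q) (hs0 : 0 < s) (hs : 4 / q - 1 < s) (hs1 : s ≤ 1) : ∃ C : ℝ≥0, ∀ (n : ℕ)
    (φ : ℝ × ℝ → ℝ) (M : ℝ≥0) (g : ℝ × ℝ → ℂ) (V : ℝ≥0), 1 ≤ n → ContDiff ℝ (n + 1 : ℕ) φ →
      (∀ i j, i + j = n + 1 → ∀ x ∈ Dk, |J φ i j x| ≤ M) → Reg g s V →
      eLpNorm (ext univ fun x => cexp (I * (φ x : ℂ)) * g x) (ENNReal.ofReal q) volume ≤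
        C * ((1 + n) ^ 5 * (1 + (M / n.factorial) ^ ((3 : ℝ) / n)) * V : ℝ≥0) := by
  obtain ⟨C, hC⟩ := cells3 q s hq hs0 hs hs1
  refine ⟨343 * C, ?_⟩
  intro n φ M g V hn hφ hJ hg
  have hn' : (0 : ℝ) < n := by exact_mod_cast hn
  set X : ℝ≥0 := (M / n.factorial) ^ ((1 : ℝ) / n) with hX
  set N : ℕ := ⌈4 * X⌉₊ + 1 with hN
  have hX2 : X ^ 3 = (M / n.factorial) ^ ((3 : ℝ) / n) := by
    rw [hX, ← NNReal.rpow_natCast, ← NNReal.rpow_mul]
    congr 1
    push_cast
    ring
  have hXn : (X : ℝ) ^ n = M / n.factorial := by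
    have h1 : X ^ n = M / n.factorial := by
      rw [hX, ← NNReal.rpow_natCast, ← NNReal.rpow_mul, one_div_mul_cancel hn'.ne', NNReal.rpow_one]
    have h2 := congrArg (fun x : ℝ≥0 => (x : ℝ)) h1
    simp only [NNReal.coe_pow, NNReal.coe_div, NNReal.coe_natCast] at h2
    exact h2
  have hN0 : 0 < N := by omega
  have hN0' : (0 : ℝ) < N := by exact_mod_cast hN0
  have hN1 : (4 * X : ℝ) ≤ N := by
    have h1 : 4 * X ≤ (⌈4 * X⌉₊ : ℝ≥0) := Nat.le_ceil _
    have h2 : (4 * X : ℝ) ≤ (⌈4 * X⌉₊ : ℝ) := by exact_mod_cast h1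
    rw [hN]
    push_cast
    linarith
  have hN2 : (N : ℝ≥0) ≤ 4 * X + 2 := by
    have h1 : (⌈4 * X⌉₊ : ℝ≥0) < 4 * X + 1 := Nat.ceil_lt_add_one (by positivity)
    rw [hN]
    push_cast
    calc (⌈4 * X⌉₊ : ℝ≥0) + 1 ≤ (4 * X + 1) + 1 := by gcongr
      _ = _ := by ring
  have hkey : (M : ℝ) * (4 / N) ^ n / n.factorial ≤ 1 := by
    have e : (M : ℝ) * (4 / N) ^ n / n.factorial = (4 * X / N) ^ n := by
      rw [div_pow, div_pow, mul_pow, hXn]
      ring
    rw [e]
    apply pow_le_one₀ (by positivity)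
    rw [div_le_one hN0']
    exact hN1
  have h1 := hC n N φ M g V hN0 hφ M.2 hJ hkey hg
  refine h1.trans ?_
  have h2 : (((N : ℝ≥0) + 1) ^ 3) ≤ 343 * (1 + (M / n.factorial) ^ ((3 : ℝ) / n)) := by
    rw [← hX2]
    have h3 : (N : ℝ≥0) + 1 ≤ 4 * X + 3 := by
      calc (N : ℝ≥0) + 1 ≤ (4 * X + 2) + 1 := by gcongr
        _ = _ := by ring
    have h4 : ((N : ℝ≥0) + 1) ^ 3 ≤ (4 * X + 3) ^ 3 := by gcongr
    refine h4.trans ?_
    rcases le_total X 1 with h | h
    · calc (4 * X + 3) ^ 3 ≤ (4 * 1 + 3) ^ 3 := by gcongr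
        _ = 343 * (1 + 0) := by norm_num
        _ ≤ _ := by gcongr; exact zero_le
    · calc (4 * X + 3) ^ 3 ≤ (4 * X + 3 * X) ^ 3 := by
            gcongr
            calc (3 : ℝ≥0) = 3 * 1 := (mul_one _).symm
              _ ≤ 3 * X := by gcongr
        _ = 343 * (0 + X ^ 3) := by ring
        _ ≤ _ := by gcongr; exact zero_le
  calc (C : ℝ≥0∞) * ((((N + 1) ^ 3 * (1 + n) ^ 5) * V : ℝ≥0) : ℝ≥0∞)
      ≤ (C : ℝ≥0∞) * (((343 * (1 + (M / n.factorial) ^ ((3 : ℝ) / n)) * (1 + n) ^ 5) * V : ℝ≥0) : ℝ≥0∞) := by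
        have h5 : (((N + 1) ^ 3 * (1 + n) ^ 5) * V : ℝ≥0) ≤
            (343 * (1 + (M / n.factorial) ^ ((3 : ℝ) / n)) * (1 + n) ^ 5) * V := by
          gcongr
        gcongr
    _ = _ := by
        push_cast
        ring

end Pool.Agent.Y250.PV
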